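import Mathlib
import Pool.Agent.Lib.MP_2c1b2b_gt.Interfaces

/-!
# The standard Gaussian weight and the product of standard Gaussian laws
-/

set_option autoImplicit false

open MeasureTheory ProbabilityTheory Finset
open scoped ENNReal

namespace Pool.Agent.Lib.MP_2c1b2b_gt.H94

noncomputable section

/-- the standard Gaussian law on `Fin N → ℝ` -/
abbrev gam (N : ℕ) : Measure (Fin N → ℝ) := Measure.pi fun _ : Fin N => gaussianReal 0 1

lemma lintegral_prod_pi {N : ℕ} (f : Fin N → ℝ → ℝ) (hf : ∀ i, Integrable (f i))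
    (h0 : ∀ i x, 0 ≤ f i x) :
    ∫⁻ x : Fin N → ℝ, ENNReal.ofReal (∏ i, f i (x i)) = ∏ i, ∫⁻ t, ENNReal.ofReal (f i t) := by
  have h1 : Integrable (fun x : Fin N → ℝ => ∏ i, f i (x i)) := by
    exact Integrable.fintype_prod (f := f) hf
  rw [← ofReal_integral_eq_lintegral_ofReal h1
    (Filter.Eventually.of_forall fun x => prod_nonneg fun i _ => h0 i _)]
  rw [integral_fintype_prod_volume_eq_prod, ENNReal.ofReal_prod_of_nonneg
    (fun i _ => integral_nonneg (h0 i))]
  refine prod_congr rfl fun i _ => ?_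
  rw [ofReal_integral_eq_lintegral_ofReal (hf i) (Filter.Eventually.of_forall (h0 i))]

/-- the density of the standard Gaussian law -/
def gdens {N : ℕ} (x : Fin N → ℝ) : ℝ :=
  ((2 * Real.pi) ^ ((N : ℝ) / 2))⁻¹ * Real.exp (-(sq x) / 2)

lemma gdens_eq_prod {N : ℕ} (x : Fin N → ℝ) : gdens x = ∏ i, gaussianPDFReal 0 1 (x i) := by
  unfold gdens sq
  simp only [gaussianPDFReal, NNReal.coe_one, mul_one, sub_zero]
  rw [prod_mul_distrib, ← Real.exp_sum]
  congr 1
  · rw [prod_const, card_univ, Fintype.card_fin, inv_pow, Real.sqrt_eq_rpow,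
      ← Real.rpow_natCast, ← Real.rpow_mul (by positivity)]
    congr 2
    ring
  · congr 1
    rw [← sum_div, sum_neg_distrib]

lemma measurable_sq {N : ℕ} : Measurable (sq : (Fin N → ℝ) → ℝ) := by
  unfold sq
  fun_prop

lemma measurable_gdens {N : ℕ} : Measurable (gdens : (Fin N → ℝ) → ℝ) := by
  unfold gdens
  exact ((measurable_sq.neg.div_const 2).exp).const_mul _

theorem gam_eq_withDensity (N : ℕ) :
    gam N = (volume : Measure (Fin N → ℝ)).withDensity (fun x => ENNReal.ofReal (gdens x)) := by
  refine Measure.pi_eq (fun s hs => ?_)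
  rw [withDensity_apply _ (MeasurableSet.univ_pi hs), ← lintegral_indicator
    (MeasurableSet.univ_pi hs)]
  have h1 : ∀ x : Fin N → ℝ, (Set.univ.pi s).indicator (fun x => ENNReal.ofReal (gdens x)) x =
      ENNReal.ofReal (∏ i, (s i).indicator (gaussianPDFReal 0 1) (x i)) := by
    intro x
    by_cases hx : x ∈ Set.univ.pi s
    · rw [Set.indicator_of_mem hx, gdens_eq_prod]
      congr 1
      refine prod_congr rfl fun i _ => ?_
      rw [Set.indicator_of_mem (hx i (Set.mem_univ i))]
    · rw [Set.indicator_of_notMem hx]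
      have : ∃ i, x i ∉ s i := by
        by_contra hcon
        push Not at hcon
        exact hx fun i _ => hcon i
      obtain ⟨i, hi⟩ := this
      rw [prod_eq_zero (mem_univ i) (Set.indicator_of_notMem hi _)]
      simp
  simp_rw [h1]
  rw [lintegral_prod_pi]
  · refine prod_congr rfl fun i _ => ?_
    rw [gaussianReal_apply 0 one_ne_zero, ← lintegral_indicator (hs i)]
    refine lintegral_congr fun t => ?_
    by_cases ht : t ∈ s i
    · rw [Set.indicator_of_mem ht, Set.indicator_of_mem ht]; rfl
    · rw [Set.indicator_of_notMem ht, Set.indicator_of_notMem ht]; simp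
  · intro i
    exact (integrable_gaussianPDFReal 0 1).indicator (hs i)
  · intro i x
    exact Set.indicator_nonneg (fun t _ => gaussianPDFReal_nonneg 0 1 t) x

lemma two_pi_pos (N : ℕ) : 0 < (2 * Real.pi) ^ ((N : ℝ) / 2) := by positivity

/-- the Gaussian weight is `(2π)^(N/2)` times the standard Gaussian law -/
theorem lintegral_gw {N : ℕ} (F : (Fin N → ℝ) → ℝ≥0∞) (hF : Measurable F) :
    ∫⁻ x, ENNReal.ofReal (Real.exp (-(sq x) / 2)) * F x =
      ENNReal.ofReal ((2 * Real.pi) ^ ((N : ℝ) / 2)) * ∫⁻ x, F x ∂(gam N) := by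
  rw [gam_eq_withDensity, lintegral_withDensity_eq_lintegral_mul _
    measurable_gdens.ennreal_ofReal hF, ← lintegral_const_mul]
  · refine lintegral_congr fun x => ?_
    simp only [Pi.mul_apply]
    rw [← mul_assoc, ← ENNReal.ofReal_mul (two_pi_pos N).le]
    congr 2
    unfold gdens
    rw [← mul_assoc, mul_inv_cancel₀ (two_pi_pos N).ne', one_mul]
  · exact measurable_gdens.ennreal_ofReal.mul hF

theorem gw_eq {N : ℕ} {S : Set (Fin N → ℝ)} (hS : MeasurableSet S) :
    gw S = ENNReal.ofReal ((2 * Real.pi) ^ ((N : ℝ) / 2)) * gam N S := by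
  have h := lintegral_gw (N := N) (S.indicator 1) (measurable_one.indicator hS)
  rw [lintegral_indicator_one hS] at h
  rw [← h, gw, ← lintegral_indicator hS]
  refine lintegral_congr fun x => ?_
  by_cases hx : x ∈ S <;> simp [hx]

/-- second moments -/
theorem integral_sq_gam {N : ℕ} (a : Fin N → ℝ) :
    Integrable (fun x : Fin N → ℝ => (∑ i, a i * x i) ^ 2) (gam N) ∧
      ∫ x, (∑ i, a i * x i) ^ 2 ∂(gam N) = sq a := by
  have hmem : ∀ i, MemLp (fun x : Fin N → ℝ => a i * x i) 2 (gam N) := by
    intro i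
    have h : MemLp (fun x : Fin N → ℝ => x i) 2 (gam N) := by
      have := (measurePreserving_eval (fun _ : Fin N => gaussianReal 0 1) i)
      exact (IsGaussian.memLp_two_id (μ := gaussianReal 0 1)).comp_measurePreserving this
    exact h.const_mul _
  have hsum : MemLp (fun x : Fin N → ℝ => ∑ i, a i * x i) 2 (gam N) := by
    have := memLp_finsetSum' (univ : Finset (Fin N)) (fun i _ => hmem i)
    convert this using 1
    ext x
    simp
  refine ⟨hsum.integrable_sq, ?_⟩
  have hmean : ∫ x, (∑ i, a i * x i) ∂(gam N) = 0 := by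
    rw [integral_finsetSum _ (fun i _ => (hmem i).integrable (by norm_num))]
    refine sum_eq_zero fun i _ => ?_
    rw [integral_const_mul, integral_eval, integral_id_gaussianReal]
    simp
  have hvar : Var[fun x : Fin N → ℝ => ∑ i, a i * x i; gam N] = sq a := by
    have h2 : (fun x : Fin N → ℝ => ∑ i, a i * x i) = ∑ i, fun x : Fin N → ℝ => a i * (id (x i)) := by
      ext x; simp
    rw [h2, variance_sum_pi (fun i => IsGaussian.memLp_two_id.const_mul _)]
    unfold sq
    refine sum_congr rfl fun i _ => ?_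
    change Var[fun x ↦ _ * (id x); gaussianReal 0 1] = _
    rw [variance_const_mul, variance_id_gaussianReal]
    simp
  rw [variance_eq_sub hsum, hmean] at hvar
  simpa using hvar

end

end Pool.Agent.Lib.MP_2c1b2b_gt.H94
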