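import Mathlib
import Pool.Agent.Lib.MP_2c1b2b_gt.Interfaces
import Pool.Agent.Lib.MP_2c1b2b_gt.H94.Gauss

/-!
# Module B: transport

The determinant inequality of Ball and Barthe and the transport of the Gaussian measure.
-/

set_option autoImplicit false

open MeasureTheory ProbabilityTheory Finset
open scoped ENNReal InnerProductSpace

namespace Pool.Agent.Lib.MP_2c1b2b_gt.H94

noncomputable section

section det

variable {N m : ℕ}

/-- the operator `x ↦ ∑ (a i) ⟪u i, x⟫ u i` -/
def frameOp (a : Fin m → ℝ) (u : Fin m → EuclideanSpace ℝ (Fin N)) :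
    EuclideanSpace ℝ (Fin N) →L[ℝ] EuclideanSpace ℝ (Fin N) :=
  ∑ i, (a i) • (innerSL ℝ (u i)).smulRight (u i)

lemma frameOp_apply (a : Fin m → ℝ) (u : Fin m → EuclideanSpace ℝ (Fin N))
    (x : EuclideanSpace ℝ (Fin N)) :
    frameOp a u x = ∑ i, (a i * inner ℝ (u i) x) • u i := by
  simp [frameOp, mul_smul]

lemma inner_frameOp (a : Fin m → ℝ) (u : Fin m → EuclideanSpace ℝ (Fin N))
    (x y : EuclideanSpace ℝ (Fin N)) :
    inner ℝ (frameOp a u x) y = ∑ i, a i * inner ℝ (u i) x * inner ℝ (u i) y := by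
  rw [frameOp_apply, sum_inner]
  refine sum_congr rfl fun i _ => ?_
  rw [real_inner_smul_left]

/-- `x - ∑ (a i) ⟪u i, x⟫ u i` -/
def jac (a : Fin m → ℝ) (u : Fin m → EuclideanSpace ℝ (Fin N)) :
    EuclideanSpace ℝ (Fin N) →L[ℝ] EuclideanSpace ℝ (Fin N) :=
  ContinuousLinearMap.id ℝ _ - frameOp a u

lemma inner_jac (a : Fin m → ℝ) (u : Fin m → EuclideanSpace ℝ (Fin N))
    (x y : EuclideanSpace ℝ (Fin N)) :
    inner ℝ (jac a u x) y = inner ℝ x y - ∑ i, a i * inner ℝ (u i) x * inner ℝ (u i) y := by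
  have h : jac a u x = x - frameOp a u x := rfl
  rw [h, inner_sub_left, inner_frameOp]

lemma jac_isSymmetric (a : Fin m → ℝ) (u : Fin m → EuclideanSpace ℝ (Fin N)) :
    (jac a u : EuclideanSpace ℝ (Fin N) →ₗ[ℝ] EuclideanSpace ℝ (Fin N)).IsSymmetric := by
  intro x y
  rw [ContinuousLinearMap.coe_coe, inner_jac, real_inner_comm (jac a u y) x, inner_jac,
    real_inner_comm x y]
  congr 1
  refine sum_congr rfl fun i _ => ?_
  ring

variable {c : Fin m → ℝ} {u : Fin m → EuclideanSpace ℝ (Fin N)}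

/-- The **Ball-Barthe inequality** (for a system with `∑ c j ⟪u j, ·⟫² ≤ ‖·‖²`). -/
theorem det_jac_ge (hc : ∀ j, 0 ≤ c j) (hu : ∀ j, ‖u j‖ = 1)
    (hP : ∀ y, ∑ j, c j * (inner ℝ (u j) y) ^ 2 ≤ ‖y‖ ^ 2)
    (lam : Fin m → ℝ) (hlam : ∀ j, 0 < lam j) :
    ∏ j, (lam j) ^ (c j) ≤ (jac (fun j => c j * (1 - lam j)) u).det := by
  set T : EuclideanSpace ℝ (Fin N) →ₗ[ℝ] EuclideanSpace ℝ (Fin N) :=
    (jac (fun j => c j * (1 - lam j)) u : EuclideanSpace ℝ (Fin N) →ₗ[ℝ] EuclideanSpace ℝ (Fin N))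
    with hT
  have hs : T.IsSymmetric := jac_isSymmetric _ _
  have hn : Module.finrank ℝ (EuclideanSpace ℝ (Fin N)) = N := by simp
  have hdet : (jac (fun j => c j * (1 - lam j)) u).det = ∏ k, hs.eigenvalues hn k := by
    have := hs.det_eq_prod_eigenvalues hn
    simpa using this
  rw [hdet]
  set e := hs.eigenvectorBasis hn with he
  set w : Fin N → Fin m → ℝ := fun k j => c j * (inner ℝ (u j) (e k)) ^ 2 with hw
  have hw0 : ∀ k j, 0 ≤ w k j := fun k j => mul_nonneg (hc j) (sq_nonneg _)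
  have hw1 : ∀ k, ∑ j, w k j ≤ 1 := by
    intro k
    have := hP (e k)
    rw [e.orthonormal.1 k] at this
    simpa [hw] using this
  have hev : ∀ k, hs.eigenvalues hn k = (1 - ∑ j, w k j) + ∑ j, w k j * lam j := by
    intro k
    have h1 : T (e k) = (hs.eigenvalues hn k : ℝ) • e k := by
      have := hs.apply_eigenvectorBasis hn k
      rw [← he] at this
      exact this
    have h2 : inner ℝ (T (e k)) (e k) = hs.eigenvalues hn k := by
      rw [h1, real_inner_smul_left, real_inner_self_eq_norm_sq, e.orthonormal.1 k]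
      simp
    rw [← h2, hT, ContinuousLinearMap.coe_coe, inner_jac, real_inner_self_eq_norm_sq,
      e.orthonormal.1 k]
    rw [sub_add, ← sum_sub_distrib, one_pow]
    congr 1
    refine sum_congr rfl fun i _ => ?_
    simp only [hw]
    ring
  have hk : ∀ k, ∏ j, (lam j) ^ (w k j) ≤ hs.eigenvalues hn k := by
    intro k
    rw [hev k]
    have := Real.geom_mean_le_arith_mean_weighted (univ : Finset (Option (Fin m)))
      (fun o => o.elim (1 - ∑ j, w k j) (w k)) (fun o => o.elim 1 lam)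
      (by
        intro o _
        cases o with
        | none => simpa using hw1 k
        | some j => exact hw0 k j)
      (by rw [Fintype.sum_option]; simp)
      (by
        intro o _
        cases o with
        | none => simp
        | some j => exact (hlam j).le)
    rw [Fintype.prod_option, Fintype.sum_option] at this
    simpa using this
  calc ∏ i, (lam i) ^ (c i) = ∏ k, ∏ i, (lam i) ^ (w k i) := by
        rw [prod_comm]
        refine prod_congr rfl fun i _ => ?_
        rw [← Real.rpow_sum_of_pos (hlam i)]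
        congr 1
        simp only [hw]
        rw [← mul_sum]
        have : ∑ k, (inner ℝ (u i) (e k)) ^ 2 = ‖u i‖ ^ 2 := by
          exact e.sum_sq_inner_left (u i)
        rw [this, hu i]
        norm_num
    _ ≤ ∏ k, hs.eigenvalues hn k :=
        prod_le_prod (fun k _ => prod_nonneg fun i _ => Real.rpow_nonneg (hlam i).le _)
          (fun k _ => hk k)

end det

section chi

lemma chi_hasDerivAt (s : ℝ) : HasDerivAt chi (1 - Real.exp (-s ^ 2 / 2)) s := by
  unfold chi
  refine (hasDerivAt_id s).sub ?_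
  have hcont : Continuous fun r : ℝ => Real.exp (-r ^ 2 / 2) := by fun_prop
  exact intervalIntegral.integral_hasDerivAt_right (hcont.intervalIntegrable _ _)
    (hcont.stronglyMeasurableAtFilter _ _) hcont.continuousAt

/-- the function `s - chi s` -/
def psi (s : ℝ) : ℝ := s - chi s

lemma psi_hasDerivAt (s : ℝ) : HasDerivAt psi (Real.exp (-s ^ 2 / 2)) s := by
  have h := (hasDerivAt_id s).sub (chi_hasDerivAt s)
  have h2 : (1 : ℝ) - (1 - Real.exp (-s ^ 2 / 2)) = Real.exp (-s ^ 2 / 2) := by ring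
  rw [h2] at h
  exact h

lemma psi_zero : psi 0 = 0 := by simp [psi, chi]

lemma psi_strictMono : StrictMono psi := by
  refine strictMono_of_deriv_pos fun x => ?_
  rw [(psi_hasDerivAt x).deriv]
  exact Real.exp_pos _

lemma chi_mono : Monotone chi := by
  refine monotone_of_deriv_nonneg (fun x => (chi_hasDerivAt x).differentiableAt) fun x => ?_
  rw [(chi_hasDerivAt x).deriv, sub_nonneg, Real.exp_le_one_iff]
  nlinarith [sq_nonneg x]

lemma chi_zero : chi 0 = 0 := by simp [chi]

lemma psi_sq_le (s : ℝ) : psi s ^ 2 ≤ s ^ 2 := by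
  rw [sq_le_sq]
  rcases le_total 0 s with h | h
  · have h1 : 0 ≤ psi s := by
      have := psi_strictMono.monotone h
      rwa [psi_zero] at this
    have h2 : 0 ≤ chi s := by
      have := chi_mono h
      rwa [chi_zero] at this
    rw [abs_of_nonneg h1, abs_of_nonneg h]
    unfold psi
    linarith
  · have h1 : psi s ≤ 0 := by
      have := psi_strictMono.monotone h
      rwa [psi_zero] at this
    have h2 : chi s ≤ 0 := by
      have := chi_mono h
      rwa [chi_zero] at this
    rw [abs_of_nonpos h1, abs_of_nonpos h]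
    unfold psi
    linarith

end chi

section transport

variable {N m : ℕ} (c : Fin m → ℝ) (u : Fin m → EuclideanSpace ℝ (Fin N))

/-- the transport map -/
def Phi (y : EuclideanSpace ℝ (Fin N)) : EuclideanSpace ℝ (Fin N) :=
  y - ∑ j, (c j * chi (inner ℝ (u j) y)) • u j

lemma Phi_hasFDerivAt (y : EuclideanSpace ℝ (Fin N)) :
    HasFDerivAt (Phi c u)
      (jac (fun j => c j * (1 - Real.exp (-(inner ℝ (u j) y) ^ 2 / 2))) u) y := by
  unfold Phi jac
  refine (hasFDerivAt_id y).sub ?_
  unfold frameOp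
  refine HasFDerivAt.fun_sum fun j _ => ?_
  have h1 : HasFDerivAt (fun y : EuclideanSpace ℝ (Fin N) => (inner ℝ (u j) y : ℝ))
      (innerSL ℝ (u j)) y := (innerSL ℝ (u j)).hasFDerivAt
  have h2 := (chi_hasDerivAt (inner ℝ (u j) y)).comp_hasFDerivAt y h1
  have h3 := (h2.const_mul (c j)).smul_const (u j)
  refine h3.congr_fderiv ?_
  ext x
  simp only [ContinuousLinearMap.smulRight_apply, smul_apply, innerSL_apply_apply, smul_eq_mul,
    smul_smul]

variable {c u}

lemma Phi_norm_le (hc : ∀ j, 0 ≤ c j)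
    (hP : ∀ y, ∑ j, c j * (inner ℝ (u j) y) ^ 2 ≤ ‖y‖ ^ 2)
    (y : EuclideanSpace ℝ (Fin N)) : ‖Phi c u y‖ ^ 2 ≤ ‖y‖ ^ 2 := by
  set z := Phi c u y with hz
  -- the inner product of `z` with `z`
  have h1 : ‖z‖ ^ 2 = inner ℝ y z - ∑ j, c j * inner ℝ (u j) y * inner ℝ (u j) z
      + ∑ j, c j * psi (inner ℝ (u j) y) * inner ℝ (u j) z := by
    have h2 : inner ℝ z z = inner ℝ y z - ∑ j, c j * chi (inner ℝ (u j) y) * inner ℝ (u j) z := by
      conv_lhs => rw [hz]
      unfold Phi
      rw [inner_sub_left, sum_inner]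
      congr 1
      refine sum_congr rfl fun j _ => ?_
      rw [real_inner_smul_left]
      rfl
    rw [← real_inner_self_eq_norm_sq, h2, sub_add, ← sum_sub_distrib]
    congr 1
    refine sum_congr rfl fun j _ => ?_
    unfold psi
    ring
  have h3 := hP (y - z)
  have h4 : ‖y - z‖ ^ 2 = ‖y‖ ^ 2 - 2 * inner ℝ y z + ‖z‖ ^ 2 := norm_sub_sq_real y z
  have h5 : ∑ j, c j * (inner ℝ (u j) (y - z)) ^ 2 = ∑ j, c j * (inner ℝ (u j) y) ^ 2
      - 2 * ∑ j, c j * inner ℝ (u j) y * inner ℝ (u j) z + ∑ j, c j * (inner ℝ (u j) z) ^ 2 := by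
    rw [mul_sum, ← sum_sub_distrib, ← sum_add_distrib]
    refine sum_congr rfl fun j _ => ?_
    rw [inner_sub_right]
    ring
  have h6 : ∑ j, c j * psi (inner ℝ (u j) y) * inner ℝ (u j) z ≤
      (∑ j, c j * (inner ℝ (u j) y) ^ 2 + ∑ j, c j * (inner ℝ (u j) z) ^ 2) / 2 := by
    rw [← sum_add_distrib, sum_div]
    refine sum_le_sum fun j _ => ?_
    have h7 := psi_sq_le (inner ℝ (u j) y)
    have h8 : psi (inner ℝ (u j) y) * inner ℝ (u j) z ≤
        ((inner ℝ (u j) y) ^ 2 + (inner ℝ (u j) z) ^ 2) / 2 := by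
      nlinarith [sq_nonneg (psi (inner ℝ (u j) y) - inner ℝ (u j) z)]
    have := mul_le_mul_of_nonneg_left h8 (hc j)
    calc c j * psi (inner ℝ (u j) y) * inner ℝ (u j) z
        = c j * (psi (inner ℝ (u j) y) * inner ℝ (u j) z) := by ring
      _ ≤ _ := this
      _ = _ := by ring
  nlinarith

lemma Phi_injective (hc : ∀ j, 0 ≤ c j)
    (hP : ∀ y, ∑ j, c j * (inner ℝ (u j) y) ^ 2 ≤ ‖y‖ ^ 2) : Function.Injective (Phi c u) := by
  intro y y' h
  set d := y - y' with hd
  have h1 : inner ℝ (Phi c u y - Phi c u y') d = 0 := by rw [h]; simp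
  have h2 : inner ℝ (Phi c u y - Phi c u y') d = ‖d‖ ^ 2 -
      ∑ j, c j * (chi (inner ℝ (u j) y) - chi (inner ℝ (u j) y')) * inner ℝ (u j) d := by
    have : Phi c u y - Phi c u y' =
        d - ∑ j, (c j * (chi (inner ℝ (u j) y) - chi (inner ℝ (u j) y'))) • u j := by
      unfold Phi
      have h3 : ∑ j, (c j * (chi (inner ℝ (u j) y) - chi (inner ℝ (u j) y'))) • u j =
          ∑ j, (c j * chi (inner ℝ (u j) y)) • u j - ∑ j, (c j * chi (inner ℝ (u j) y')) • u j := by
        rw [← sum_sub_distrib]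
        refine sum_congr rfl fun j _ => ?_
        rw [mul_sub, sub_smul]
      rw [h3, hd]
      abel
    rw [this, inner_sub_left, real_inner_self_eq_norm_sq, sum_inner]
    congr 1
    refine sum_congr rfl fun j _ => ?_
    rw [real_inner_smul_left]
  have h3 := hP d
  -- the sum of nonnegative terms
  have hterm : ∀ j, c j * (chi (inner ℝ (u j) y) - chi (inner ℝ (u j) y')) * inner ℝ (u j) d =
      c j * (inner ℝ (u j) d) ^ 2 -
      c j * ((psi (inner ℝ (u j) y) - psi (inner ℝ (u j) y')) * inner ℝ (u j) d) := by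
    intro j
    have : inner ℝ (u j) d = inner ℝ (u j) y - inner ℝ (u j) y' := by rw [hd, inner_sub_right]
    unfold psi
    rw [this]
    ring
  have hnn : ∀ j, 0 ≤ c j * ((psi (inner ℝ (u j) y) - psi (inner ℝ (u j) y')) *
      inner ℝ (u j) d) := by
    intro j
    refine mul_nonneg (hc j) ?_
    have hd' : inner ℝ (u j) d = inner ℝ (u j) y - inner ℝ (u j) y' := by rw [hd, inner_sub_right]
    rw [hd']
    rcases le_total (inner ℝ (u j) y) (inner ℝ (u j) y') with h' | h'
    · exact mul_nonneg_of_nonpos_of_nonpos (sub_nonpos.2 (psi_strictMono.monotone h'))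
        (sub_nonpos.2 h')
    · exact mul_nonneg (sub_nonneg.2 (psi_strictMono.monotone h')) (sub_nonneg.2 h')
  rw [h1] at h2
  simp_rw [hterm] at h2
  rw [sum_sub_distrib] at h2
  have hs0 : ∑ j, c j * ((psi (inner ℝ (u j) y) - psi (inner ℝ (u j) y')) *
      inner ℝ (u j) d) = 0 := by
    refine le_antisymm (by linarith) (sum_nonneg fun j _ => hnn j)
  have hz := (sum_eq_zero_iff_of_nonneg (fun j _ => hnn j)).1 hs0
  have hz2 : ∀ j, c j * (inner ℝ (u j) d) ^ 2 = 0 := by
    intro j
    have h5 := hz j (mem_univ j)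
    rcases mul_eq_zero.1 h5 with h6 | h6
    · rw [h6, zero_mul]
    · rcases mul_eq_zero.1 h6 with h7 | h7
      · have h8 : inner ℝ (u j) y = inner ℝ (u j) y' :=
          psi_strictMono.injective (sub_eq_zero.1 h7)
        have : inner ℝ (u j) d = 0 := by rw [hd, inner_sub_right, h8, sub_self]
        rw [this]; ring
      · rw [h7]; ring
  have h9 : ‖d‖ ^ 2 = 0 := by
    rw [hs0, sum_eq_zero (fun j _ => hz2 j)] at h2
    linarith
  have : ‖d‖ = 0 := by simpa using h9
  rw [norm_eq_zero, hd, sub_eq_zero] at this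
  exact this

end transport

/-- the lower bound by Jensen's inequality -/
lemma jensen {N m : ℕ} (a : Fin m → Fin N → ℝ) (c : Fin m → ℝ) (ha : ∀ j, sq (a j) = 1) :
    ENNReal.ofReal (Real.exp (-(∑ j, c j) / 2)) ≤
      ∫⁻ y, ENNReal.ofReal (Real.exp (-(∑ j, c j * (∑ i, a j i * y i) ^ 2) / 2)) ∂(gam N) := by
  set X : (Fin N → ℝ) → ℝ := fun y => ∑ j, c j * (∑ i, a j i * y i) ^ 2 with hX
  set M : ℝ := ∑ j, c j with hM
  have hint : Integrable X (gam N) :=
    integrable_finsetSum _ fun j _ => (integral_sq_gam (a j)).1.const_mul _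
  have hval : ∫ y, X y ∂(gam N) = M := by
    rw [hX, integral_finsetSum _ fun j _ => (integral_sq_gam (a j)).1.const_mul _]
    refine sum_congr rfl fun j _ => ?_
    rw [integral_const_mul, (integral_sq_gam (a j)).2, ha j, mul_one]
  set L : (Fin N → ℝ) → ℝ := fun y => Real.exp (-M / 2) * (1 - (X y - M) / 2) with hL
  have hLint : Integrable L (gam N) :=
    ((integrable_const (1 : ℝ)).sub ((hint.sub (integrable_const M)).div_const 2)).const_mul _
  have hi1 : Integrable (fun y => (X y - M) / 2) (gam N) :=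
    (hint.sub (integrable_const M)).div_const 2
  have hLval : ∫ y, L y ∂(gam N) = Real.exp (-M / 2) := by
    rw [hL, integral_const_mul, integral_sub (integrable_const _) hi1, integral_div,
      integral_sub hint (integrable_const M), hval]
    simp
  have hle : ∀ y, L y ≤ Real.exp (-(X y) / 2) := by
    intro y
    have h1 : Real.exp (-(X y) / 2) = Real.exp (-M / 2) * Real.exp (-((X y - M) / 2)) := by
      rw [← Real.exp_add]
      congr 1
      ring
    rw [h1, hL]
    refine mul_le_mul_of_nonneg_left ?_ (Real.exp_pos _).le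
    have := Real.add_one_le_exp (-((X y - M) / 2))
    linarith
  calc ENNReal.ofReal (Real.exp (-M / 2)) = ENNReal.ofReal (∫ y, L y ∂(gam N)) := by rw [hLval]
    _ ≤ ENNReal.ofReal (∫ y, max (L y) 0 ∂(gam N)) :=
        ENNReal.ofReal_le_ofReal (integral_mono hLint hLint.pos_part fun y => le_max_left _ _)
    _ = ∫⁻ y, ENNReal.ofReal (max (L y) 0) ∂(gam N) :=
        ofReal_integral_eq_lintegral_ofReal hLint.pos_part
          (Filter.Eventually.of_forall fun y => le_max_right _ _)
    _ = ∫⁻ y, ENNReal.ofReal (L y) ∂(gam N) := by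
        refine lintegral_congr fun y => ?_
        rcases le_total 0 (L y) with h | h
        · rw [max_eq_left h]
        · rw [max_eq_right h, ENNReal.ofReal_zero, ENNReal.ofReal_of_nonpos h]
    _ ≤ _ := lintegral_mono fun y => ENNReal.ofReal_le_ofReal (hle y)

theorem transportStatement : TransportStatement := by
  intro N m a c ha hc hP S hS hPhi
  set u : Fin m → EuclideanSpace ℝ (Fin N) := fun j => WithLp.toLp 2 (a j) with hu
  have hinner : ∀ (j : Fin m) (y : EuclideanSpace ℝ (Fin N)),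
      inner ℝ (u j) y = ∑ i, a j i * y i := by
    intro j y
    rw [hu]
    simp only [PiLp.inner_apply]
    refine sum_congr rfl fun i _ => ?_
    simp [mul_comm]
  have hnorm : ∀ y : EuclideanSpace ℝ (Fin N), ‖y‖ ^ 2 = sq (WithLp.ofLp y) := by
    intro y
    rw [EuclideanSpace.real_norm_sq_eq]
    rfl
  have hu1 : ∀ j, ‖u j‖ = 1 := by
    intro j
    have h := hnorm (u j)
    have h2 : sq (WithLp.ofLp (u j)) = 1 := ha j
    rw [h2] at h
    have h3 := norm_nonneg (u j)
    nlinarith
  have hP' : ∀ y : EuclideanSpace ℝ (Fin N), ∑ j, c j * (inner ℝ (u j) y) ^ 2 ≤ ‖y‖ ^ 2 := by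
    intro y
    rw [hnorm]
    simp_rw [hinner]
    exact hP (WithLp.ofLp y)
  have hpres := PiLp.volume_preserving_ofLp (Fin N)
  set f : EuclideanSpace ℝ (Fin N) → ℝ≥0∞ := fun x => ENNReal.ofReal (Real.exp (-‖x‖ ^ 2 / 2))
    with hf
  have hmeas0 : Measurable (fun x : Fin N → ℝ => ENNReal.ofReal (Real.exp (-(sq x) / 2))) :=
    ((measurable_sq.neg.div_const 2).exp).ennreal_ofReal
  -- step 1
  have h1 : gw S = ∫⁻ x in WithLp.ofLp ⁻¹' S, f x := by
    unfold gw
    rw [← hpres.setLIntegral_comp_preimage hS hmeas0]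
    refine lintegral_congr fun x => ?_
    rw [hf]
    simp only
    rw [← hnorm, neg_div]
  -- step 2
  have hmem : ∀ y, Phi c u y ∈ (WithLp.ofLp ⁻¹' S : Set (EuclideanSpace ℝ (Fin N))) := by
    intro y
    have := hPhi (WithLp.ofLp y)
    rw [Set.mem_preimage]
    convert this using 1
    ext k
    unfold Phi
    rw [PiLp.sub_apply]
    congr 1
    rw [WithLp.ofLp_sum, Finset.sum_apply]
    refine sum_congr rfl fun j _ => ?_
    rw [PiLp.smul_apply, smul_eq_mul, hinner]
  have h2 : ∫⁻ x in Phi c u '' Set.univ, f x ≤ ∫⁻ x in WithLp.ofLp ⁻¹' S, f x := by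
    refine lintegral_mono_set ?_
    rintro _ ⟨y, _, rfl⟩
    exact hmem y
  have h3 := lintegral_image_eq_lintegral_abs_det_fderiv_mul
    (volume : Measure (EuclideanSpace ℝ (Fin N))) MeasurableSet.univ
    (fun y _ => (Phi_hasFDerivAt c u y).hasFDerivWithinAt)
    ((Phi_injective hc hP').injOn (s := Set.univ)) f
  rw [h1]
  refine le_trans ?_ h2
  rw [h3, setLIntegral_univ]
  -- step 3
  have h4 : ∀ y : EuclideanSpace ℝ (Fin N),
      ENNReal.ofReal (Real.exp (-(sq (WithLp.ofLp y)) / 2)) *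
        ENNReal.ofReal (Real.exp (-(∑ j, c j * (∑ i, a j i * y i) ^ 2) / 2)) ≤
      ENNReal.ofReal |(jac (fun j => c j * (1 - Real.exp (-(inner ℝ (u j) y) ^ 2 / 2))) u).det| *
        f (Phi c u y) := by
    intro y
    rw [mul_comm]
    refine mul_le_mul' (ENNReal.ofReal_le_ofReal ?_) (ENNReal.ofReal_le_ofReal ?_)
    · have h5 := det_jac_ge hc hu1 hP' (fun j => Real.exp (-(inner ℝ (u j) y) ^ 2 / 2))
        (fun j => Real.exp_pos _)
      refine le_trans (le_of_eq ?_) (le_trans h5 (le_abs_self _))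
      simp_rw [← Real.exp_mul]
      rw [← Real.exp_sum]
      congr 1
      rw [← sum_neg_distrib, sum_div]
      refine sum_congr rfl fun j _ => ?_
      rw [hinner]
      ring
    · rw [Real.exp_le_exp, ← hnorm]
      have := Phi_norm_le hc hP' y
      have h6 : -‖Phi c u y‖ ^ 2 / 2 = -(‖Phi c u y‖ ^ 2) / 2 := by ring
      rw [h6]
      linarith
  refine le_trans ?_ (lintegral_mono h4)
  -- step 4
  have hX : Measurable (fun y : Fin N → ℝ =>
      ENNReal.ofReal (Real.exp (-(∑ j, c j * (∑ i, a j i * y i) ^ 2) / 2))) := by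
    fun_prop
  have h5 := hpres.lintegral_comp (f := fun y : Fin N → ℝ =>
      ENNReal.ofReal (Real.exp (-(sq y) / 2)) *
        ENNReal.ofReal (Real.exp (-(∑ j, c j * (∑ i, a j i * y i) ^ 2) / 2)))
    (hmeas0.mul hX)
  rw [h5, lintegral_gw _ hX]
  rw [ENNReal.ofReal_mul (two_pi_pos N).le]
  exact mul_le_mul' le_rfl (jensen a c ha)

end

end Pool.Agent.Lib.MP_2c1b2b_gt.H94
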